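import Pool.Agent.Y272.TY.Stm

/-!
# Project TY: transversality

`t : St_Dist → St_Trans`.
-/

open Complex Filter Topology Metric Set MeasureTheory

namespace Pool.Agent.Y37.TY

open Pool.Agent.H712R2 Pool.Agent.H713R2 Pool.Agent.W677.Mar Pool.Agent.Y272.TY

noncomputable section

/-! ### growth of the errors -/

lemma log_two_le (n : ℕ) : 1 / 2 ≤ Real.log ((n : ℝ) + 2) := by
  have h1 : Real.log 2 ≤ Real.log ((n : ℝ) + 2) :=
    Real.log_le_log (by norm_num) (by have : (0 : ℝ) ≤ n := Nat.cast_nonneg n; linarith)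
  have := Real.log_two_gt_d9
  linarith

lemma bb_nonneg (n : ℕ) : 0 ≤ bb n := by unfold bb; positivity

lemma log_le_bb (n : ℕ) : Real.log ((n : ℝ) + 2) ≤ 2 * bb n := by
  have h1 := log_two_le n
  have h2 : 1 ≤ √((n : ℝ) + 1) := by
    rw [Real.one_le_sqrt]
    have : (0 : ℝ) ≤ n := Nat.cast_nonneg n
    linarith
  unfold bb
  have h3 : Real.log ((n : ℝ) + 2) ≤ 2 * Real.log ((n : ℝ) + 2) ^ 2 := by nlinarith
  nlinarith [sq_nonneg (Real.log ((n : ℝ) + 2))]

lemma aa_le_bb (n : ℕ) : aa n ≤ 4 * bb n := by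
  have h1 := log_two_le n
  have h0 : (0 : ℝ) ≤ n := Nat.cast_nonneg n
  unfold aa bb
  rw [Real.sqrt_mul (by linarith)]
  have h3 : √(Real.log ((n : ℝ) + 2)) ≤ 4 * Real.log ((n : ℝ) + 2) ^ 2 := by
    rw [Real.sqrt_le_left (by positivity)]
    nlinarith [sq_nonneg (Real.log ((n : ℝ) + 2)), mul_pos (by linarith : (0 : ℝ) <
      Real.log ((n : ℝ) + 2)) (by linarith : (0 : ℝ) < Real.log ((n : ℝ) + 2)),
      pow_le_pow_left₀ (by norm_num : (0 : ℝ) ≤ 1 / 2) h1 3]
  nlinarith [Real.sqrt_nonneg ((n : ℝ) + 1)]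

lemma bb_le (n : ℕ) : bb n ≤ 64 * (((n : ℝ) + 2) ^ ((1 : ℝ) / 4)) ^ 3 := by
  have h0 : (0 : ℝ) < (n : ℝ) + 2 := by positivity
  have h1 : Real.log ((n : ℝ) + 2) ≤ ((n : ℝ) + 2) ^ ((1 : ℝ) / 8) / (1 / 8) :=
    Real.log_le_rpow_div h0.le (by norm_num)
  have h2 := log_two_le n
  have h3 : Real.log ((n : ℝ) + 2) ^ 2 ≤ 64 * ((n : ℝ) + 2) ^ ((1 : ℝ) / 4) := by
    have h4 : ((n : ℝ) + 2) ^ ((1 : ℝ) / 4) = (((n : ℝ) + 2) ^ ((1 : ℝ) / 8)) ^ 2 := by
      rw [← Real.rpow_natCast, ← Real.rpow_mul h0.le]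
      norm_num
    rw [h4]
    calc Real.log ((n : ℝ) + 2) ^ 2 ≤ (((n : ℝ) + 2) ^ ((1 : ℝ) / 8) / (1 / 8)) ^ 2 :=
          pow_le_pow_left₀ (by linarith) h1 2
      _ = _ := by ring
  have h5 : √((n : ℝ) + 1) ≤ (((n : ℝ) + 2) ^ ((1 : ℝ) / 4)) ^ 2 := by
    have h6 : (((n : ℝ) + 2) ^ ((1 : ℝ) / 4)) ^ 2 = √((n : ℝ) + 2) := by
      rw [← Real.rpow_natCast, ← Real.rpow_mul h0.le, Real.sqrt_eq_rpow]
      norm_num
    rw [h6]
    exact Real.sqrt_le_sqrt (by linarith)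
  unfold bb
  calc √((n : ℝ) + 1) * Real.log ((n : ℝ) + 2) ^ 2
      ≤ (((n : ℝ) + 2) ^ ((1 : ℝ) / 4)) ^ 2 * (64 * ((n : ℝ) + 2) ^ ((1 : ℝ) / 4)) :=
        mul_le_mul h5 h3 (by positivity) (by positivity)
    _ = _ := by ring

lemma growth (B η : ℝ) (hB : 0 ≤ B) (hη : 0 < η) : ∃ K : ℝ, 0 ≤ K ∧ ∀ n : ℕ, B * bb n ≤ K + η * n := by
  refine ⟨64 * B * (64 * B / η) ^ 3 + 2 * η, by positivity, fun n => ?_⟩
  set y : ℝ := ((n : ℝ) + 2) ^ ((1 : ℝ) / 4) with hy
  have hy0 : 0 ≤ y := by positivity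
  have hy4 : y ^ 4 = (n : ℝ) + 2 := by
    rw [hy, ← Real.rpow_natCast, ← Real.rpow_mul (by positivity)]
    norm_num
  have h1 : B * bb n ≤ 64 * B * y ^ 3 := by
    have := mul_le_mul_of_nonneg_left (bb_le n) hB
    rw [← hy] at this
    linarith
  have h2 : 64 * B * y ^ 3 ≤ η * y ^ 4 + 64 * B * (64 * B / η) ^ 3 := by
    by_cases hc : 64 * B / η ≤ y
    · have h3 : 64 * B ≤ η * y := by
        rw [div_le_iff₀ hη] at hc
        linarith
      have h4 : 64 * B * y ^ 3 ≤ η * y * y ^ 3 := mul_le_mul_of_nonneg_right h3 (by positivity)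
      have h5 : 0 ≤ 64 * B * (64 * B / η) ^ 3 := by positivity
      have h6 : η * y * y ^ 3 = η * y ^ 4 := by ring
      linarith
    · push Not at hc
      have h3 : y ^ 3 ≤ (64 * B / η) ^ 3 := pow_le_pow_left₀ hy0 hc.le 3
      have h4 : 64 * B * y ^ 3 ≤ 64 * B * (64 * B / η) ^ 3 :=
        mul_le_mul_of_nonneg_left h3 (by positivity)
      have h5 : 0 ≤ η * y ^ 4 := by positivity
      linarith
  rw [hy4] at h2
  linarith

/-! ### the recursion -/

/-- the product of the multipliers -/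
def M (d : ℕ) (c : ℂ) (n : ℕ) : ℂ := Y272.TY.MM d c (n + 1)

/-- the logarithmic sum -/
def S (d : ℕ) (c : ℂ) (n : ℕ) : ℝ := ∑ k ∈ Finset.range n, Real.log ‖P d (k + 1) c‖

/-- the partial sums of `R` -/
def R (d : ℕ) (c : ℂ) (n : ℕ) : ℂ := ∑ k ∈ Finset.range (n + 1), (M d c k)⁻¹

lemma M_zero (d : ℕ) (c : ℂ) : M d c 0 = 1 := by unfold M Y272.TY.MM; simp

lemma M_succ (d : ℕ) (c : ℂ) (n : ℕ) : M d c (n + 1) = M d c n * (d * P d (n + 1) c ^ (d - 1)) := by
  unfold M Y272.TY.MM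
  rw [Finset.prod_Ico_succ_top (by omega)]

lemma norm_M (d : ℕ) (c : ℂ) (n : ℕ) : ‖M d c n‖ = mm d c (n + 1) := by
  unfold M Y272.TY.MM mm
  rw [norm_prod]
  refine Finset.prod_congr rfl fun i _ => ?_
  rw [norm_mul, norm_pow, Complex.norm_natCast]

lemma norm_M_exp {d : ℕ} (hd : 2 ≤ d) {c : ℂ} {n : ℕ} (h : ∀ k < n, P d (k + 1) c ≠ 0) :
    ‖M d c n‖ = Real.exp (Real.log d * n + (d - 1) * S d c n) := by
  have hd0 : (0 : ℝ) < d := by exact_mod_cast (by omega : 0 < d)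
  induction n with
  | zero => rw [M_zero]; simp [S]
  | succ n ih =>
    have h1 : 0 < ‖P d (n + 1) c‖ := norm_pos_iff.2 (h n (Nat.lt_succ_self n))
    rw [M_succ, norm_mul, ih fun k hk => h k (Nat.lt_succ_of_lt hk), norm_mul, norm_pow,
      Complex.norm_natCast]
    have h2 : ‖P d (n + 1) c‖ ^ (d - 1) = Real.exp ((d - 1) * Real.log ‖P d (n + 1) c‖) := by
      have h3 : ((d - 1 : ℕ) : ℝ) = (d : ℝ) - 1 := by
        rw [Nat.cast_sub (by omega)]
        simp
      rw [← h3, Real.exp_nat_mul, Real.exp_log h1]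
    rw [h2, ← Real.exp_log hd0, ← Real.exp_add, ← Real.exp_add, Real.exp_log hd0]
    congr 1
    unfold S
    rw [Finset.sum_range_succ]
    push_cast
    ring

lemma diff_P (d k : ℕ) : Differentiable ℂ (P d k) := by
  have h : P d k = fun c => (PP d k).eval c := by
    funext c
    exact (eval_PP d k c).symm
  rw [h]
  exact (PP d k).differentiable

lemma deriv_P_one {d : ℕ} (hd : 2 ≤ d) (c : ℂ) : deriv (P d 1) c = 1 := by
  have h : P d 1 = fun c => c := by
    funext c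
    rw [P_succ, P_zero, zero_pow (by omega), zero_add]
  rw [h]
  exact deriv_id c

lemma deriv_P_succ (d k : ℕ) (c : ℂ) :
    deriv (P d (k + 1)) c = d * P d k c ^ (d - 1) * deriv (P d k) c + 1 := by
  have h : P d (k + 1) = fun c => P d k c ^ d + c := by
    funext c
    exact P_succ d k c
  rw [h]
  have h1 : HasDerivAt (P d k) (deriv (P d k) c) c := (diff_P d k c).hasDerivAt
  have h2 := (h1.pow d).add (hasDerivAt_id c)
  exact h2.deriv

lemma deriv_eq {d : ℕ} (hd : 2 ≤ d) {c : ℂ} {n : ℕ} (h : ∀ k < n, P d (k + 1) c ≠ 0) :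
    deriv (P d (n + 1)) c = M d c n * R d c n := by
  have hd0 : (d : ℂ) ≠ 0 := by exact_mod_cast (by omega : d ≠ 0)
  have hM : ∀ m ≤ n, M d c m ≠ 0 := by
    intro m
    induction m with
    | zero => intro _; rw [M_zero]; exact one_ne_zero
    | succ m ih =>
      intro hm
      rw [M_succ]
      exact mul_ne_zero (ih (by omega)) (mul_ne_zero hd0 (pow_ne_zero _ (h m (by omega))))
  induction n with
  | zero =>
    rw [deriv_P_one hd]
    unfold R
    simp [M_zero]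
  | succ n ih =>
    rw [deriv_P_succ, ih (fun k hk => h k (by omega)) (fun m hm => hM m (by omega))]
    unfold R
    rw [Finset.sum_range_succ _ (n + 1), mul_add, mul_inv_cancel₀ (hM _ le_rfl), M_succ]
    ring

/-! ### products close to one -/

lemma exp_sub_one_le' {x : ℝ} (h0 : 0 ≤ x) (h1 : x ≤ 1) : Real.exp x - 1 ≤ 2 * x := by
  have := Real.abs_exp_sub_one_le (x := x) (by rw [abs_of_nonneg h0]; exact h1)
  rw [abs_of_nonneg h0] at this
  exact (le_abs_self _).trans this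

lemma prod_close {n : ℕ} {u : ℕ → ℂ} {τ : ℝ} (hτ : 0 ≤ τ) (h : ∀ q < n, ‖u q - 1‖ ≤ τ)
    (h1 : n * τ ≤ 1) : ‖∏ q ∈ Finset.range n, u q - 1‖ ≤ 2 * (n * τ) := by
  have h2 := Finset.norm_prod_one_add_sub_one_le (Finset.range n) (fun q => u q - 1)
  have h3 : ∏ q ∈ Finset.range n, (1 + (u q - 1)) = ∏ q ∈ Finset.range n, u q :=
    Finset.prod_congr rfl fun q _ => by ring
  rw [h3] at h2
  have h4 : ∑ q ∈ Finset.range n, ‖u q - 1‖ ≤ n * τ := by
    calc _ ≤ ∑ q ∈ Finset.range n, τ :=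
          Finset.sum_le_sum fun q hq => h q (Finset.mem_range.1 hq)
      _ = _ := by rw [Finset.sum_const, Finset.card_range, nsmul_eq_mul]
  calc _ ≤ Real.exp (∑ q ∈ Finset.range n, ‖u q - 1‖) - 1 := h2
    _ ≤ Real.exp (n * τ) - 1 := sub_le_sub_right (Real.exp_le_exp.2 h4) _
    _ ≤ _ := exp_sub_one_le' (by positivity) h1

lemma inv_close {u : ℂ} {τ : ℝ} (h : ‖u - 1‖ ≤ τ) (h1 : τ ≤ 1 / 2) : ‖u⁻¹ - 1‖ ≤ 2 * τ := by
  have h2 : 1 / 2 ≤ ‖u‖ := by
    have h5 := norm_sub_norm_le (1 : ℂ) (1 - u)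
    rw [norm_one, sub_sub_cancel, norm_sub_rev] at h5
    linarith
  have hu : u ≠ 0 := by
    rintro rfl
    rw [norm_zero] at h2
    norm_num at h2
  have h3 : u⁻¹ - 1 = -(u - 1) * u⁻¹ := by
    field_simp
    ring
  rw [h3, norm_mul, norm_neg, norm_inv]
  have h4 : ‖u‖⁻¹ ≤ 2 := by
    rw [inv_le_comm₀ (by linarith) (by norm_num)]
    linarith
  calc ‖u - 1‖ * ‖u‖⁻¹ ≤ τ * 2 :=
        mul_le_mul h h4 (by positivity) ((norm_nonneg _).trans h)
    _ = 2 * τ := mul_comm _ _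

lemma M_ratio {d : ℕ} (hd : 2 ≤ d) {c0 c : ℂ} (n : ℕ) :
    M d c0 n * (M d c n)⁻¹ =
      ∏ q ∈ Finset.range n, (P d (q + 1) c / P d (q + 1) c0)⁻¹ ^ (d - 1) := by
  have hd0 : (d : ℂ) ≠ 0 := by exact_mod_cast (by omega : d ≠ 0)
  induction n with
  | zero => simp [M_zero]
  | succ n ih =>
    rw [Finset.prod_range_succ, ← ih, M_succ, M_succ, inv_div, div_pow, mul_inv, mul_inv]
    field_simp

/-! ### the core -/

theorem core (hD : St_Dist) {d : ℕ} (hd : 2 ≤ d) {c0 c : ℂ} {k : ℕ} {T : ℝ}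
    (ha : ∀ n : ℕ, n ≤ 2 * k → (n : ℝ) + 2 ≤ Real.exp T) (ha' : 100 * (d : ℝ) ≤ Real.exp T)
    (hb : ∀ n : ℕ, n ≤ 2 * k → Real.exp (-T) ≤ ‖P d (n + 1) c0‖)
    (hc : ∀ n : ℕ, n ≤ 2 * k → |((d : ℝ) - 1) * S d c0 n| ≤ T)
    (hdist : ‖c - c0‖ ≤ Real.exp (-(2 * (Real.log d * k)) + T))
    (he : ∀ n : ℕ, n ≤ 2 * k → |((d : ℝ) - 1) * S d c n| ≤ T)
    (he' : ∀ n : ℕ, P d (n + 1) c ≠ 0)
    (hf : ‖R d c0 k‖ ≤ Real.exp (-(Real.log d * k) + 2 * T))
    (hg : 20 * T ≤ Real.log d * k)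
    (hh : Real.exp (2 * (Real.log d * k)) ≤ ‖deriv (P d (2 * k + 1)) c‖ * Real.exp T) : False := by
  have hd2 : (2 : ℝ) ≤ d := by exact_mod_cast hd
  have hd0 : (0 : ℝ) < d := by linarith
  have hlam : 0 < Real.log d := Real.log_pos (by linarith)
  have hT : 0 < T := by
    by_contra hT
    push Not at hT
    have := Real.exp_le_one_iff.2 hT
    linarith
  obtain ⟨X, hX⟩ : ∃ X : ℝ, X = Real.log d * k := ⟨_, rfl⟩
  rw [← hX] at hdist hf hg hh
  have hX0 : 0 ≤ X := by rw [hX]; positivity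
  have hlamn : ∀ n : ℕ, n ≤ k → Real.log d * n ≤ X := by
    intro n hn
    rw [hX]
    have : (n : ℝ) ≤ k := by exact_mod_cast hn
    nlinarith
  -- the products at the two parameters
  have h0P : ∀ n : ℕ, n ≤ 2 * k → P d (n + 1) c0 ≠ 0 := by
    intro n hn
    have h1 := hb n hn
    have h2 := Real.exp_pos (-T)
    exact norm_pos_iff.1 (by linarith)
  have hM0 : ∀ n : ℕ, n ≤ 2 * k → ‖M d c0 n‖ ≤ Real.exp (Real.log d * n + T) ∧
      ‖(M d c0 n)⁻¹‖ ≤ Real.exp (-(Real.log d * n) + T) ∧ 0 < ‖M d c0 n‖ := by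
    intro n hn
    have h1 := abs_le.1 (hc n hn)
    rw [norm_inv, norm_M_exp hd fun q hq => h0P q (by omega), ← Real.exp_neg, Real.exp_le_exp,
      Real.exp_le_exp]
    exact ⟨by linarith [h1.2], by linarith [h1.1], Real.exp_pos _⟩
  have hM1 : ∀ n : ℕ, n ≤ 2 * k → ‖M d c n‖ ≤ Real.exp (Real.log d * n + T) ∧
      ‖(M d c n)⁻¹‖ ≤ Real.exp (-(Real.log d * n) + T) := by
    intro n hn
    have h1 := abs_le.1 (he n hn)
    rw [norm_inv, norm_M_exp hd fun q _ => he' q, ← Real.exp_neg, Real.exp_le_exp,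
      Real.exp_le_exp]
    exact ⟨by linarith [h1.2], by linarith [h1.1]⟩
  have h3T : (3 : ℝ) ≤ Real.exp T := by linarith
  -- distortion
  have hδ : ∀ j ∈ Finset.Icc 1 k, 3 * mm d c0 j * (∑ i ∈ Finset.Icc 1 j, 1 / mm d c0 i) *
      ‖c - c0‖ ≤ Real.exp (-X + 5 * T) := by
    intro j hj
    rw [Finset.mem_Icc] at hj
    have h1 : mm d c0 j ≤ Real.exp (X + T) := by
      obtain ⟨n, rfl⟩ : ∃ n, j = n + 1 := ⟨j - 1, by omega⟩
      rw [← norm_M]
      refine (hM0 n (by omega)).1.trans (Real.exp_le_exp.2 ?_)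
      linarith [hlamn n (by omega)]
    have h2 : ∑ i ∈ Finset.Icc 1 j, 1 / mm d c0 i ≤ Real.exp (2 * T) := by
      have h3 : ∀ i ∈ Finset.Icc 1 j, 1 / mm d c0 i ≤ Real.exp T := by
        intro i hi
        rw [Finset.mem_Icc] at hi
        obtain ⟨n, rfl⟩ : ∃ n, i = n + 1 := ⟨i - 1, by omega⟩
        rw [← norm_M, one_div, ← norm_inv]
        refine (hM0 n (by omega)).2.1.trans (Real.exp_le_exp.2 ?_)
        have : 0 ≤ Real.log d * n := by positivity
        linarith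
      have h4 := Finset.sum_le_sum h3
      rw [Finset.sum_const, Nat.card_Icc, nsmul_eq_mul] at h4
      have h5 := ha j (by omega)
      have h6 : ((j + 1 - 1 : ℕ) : ℝ) ≤ Real.exp T := by
        rw [Nat.add_sub_cancel]
        linarith
      calc _ ≤ ((j + 1 - 1 : ℕ) : ℝ) * Real.exp T := h4
        _ ≤ Real.exp T * Real.exp T := mul_le_mul_of_nonneg_right h6 (Real.exp_pos _).le
        _ = Real.exp (2 * T) := by rw [← Real.exp_add]; congr 1; ring
    have h0 : 0 ≤ ∑ i ∈ Finset.Icc 1 j, 1 / mm d c0 i := by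
      refine Finset.sum_nonneg fun i _ => ?_
      unfold mm
      positivity
    have h0' : 0 ≤ mm d c0 j := by unfold mm; positivity
    calc _ ≤ Real.exp T * Real.exp (X + T) * Real.exp (2 * T) * Real.exp (-(2 * X) + T) := by
          gcongr
      _ = Real.exp (-X + 5 * T) := by
          rw [← Real.exp_add, ← Real.exp_add, ← Real.exp_add]
          congr 1
          ring
  have hcond : ∀ j ∈ Finset.Icc 1 k, 3 * mm d c0 j * (∑ i ∈ Finset.Icc 1 j, 1 / mm d c0 i) *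
      ‖c - c0‖ ≤ ‖P d j c0‖ / (d * ((j : ℝ) + 1) ^ 2) := by
    intro j hj
    refine (hδ j hj).trans ?_
    rw [Finset.mem_Icc] at hj
    obtain ⟨n, rfl⟩ : ∃ n, j = n + 1 := ⟨j - 1, by omega⟩
    have h1 := hb n (by omega)
    have h2 := ha n (by omega)
    have h3 : (((n + 1 : ℕ) : ℝ) + 1) ^ 2 ≤ Real.exp (2 * T) := by
      have h4 : ((n + 1 : ℕ) : ℝ) + 1 = (n : ℝ) + 2 := by push_cast; ring
      rw [h4]
      calc ((n : ℝ) + 2) ^ 2 ≤ (Real.exp T) ^ 2 := pow_le_pow_left₀ (by positivity) h2 2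
        _ = Real.exp (2 * T) := by rw [sq, ← Real.exp_add]; congr 1; ring
    rw [le_div_iff₀ (by positivity)]
    calc Real.exp (-X + 5 * T) * (d * (((n + 1 : ℕ) : ℝ) + 1) ^ 2)
        ≤ Real.exp (-X + 5 * T) * (Real.exp T * Real.exp (2 * T)) := by
          gcongr
          linarith
      _ = Real.exp (-X + 8 * T) := by
          rw [← Real.exp_add, ← Real.exp_add]
          congr 1
          ring
      _ ≤ Real.exp (-T) := Real.exp_le_exp.2 (by linarith)
      _ ≤ _ := h1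
  have hpos : ∀ j ∈ Finset.Icc 1 k, 0 < mm d c0 j := by
    intro j hj
    rw [Finset.mem_Icc] at hj
    obtain ⟨n, rfl⟩ : ∃ n, j = n + 1 := ⟨j - 1, by omega⟩
    rw [← norm_M]
    exact (hM0 n (by omega)).2.2
  have hdist2 := hD d c0 c k hd hpos hcond
  have hτ : ∀ q : ℕ, q < k → ‖P d (q + 1) c / P d (q + 1) c0 - 1‖ ≤ Real.exp (-X + 6 * T) := by
    intro q hq
    have hq' : q + 1 ∈ Finset.Icc 1 k := Finset.mem_Icc.2 ⟨by omega, by omega⟩
    have h1 := (hdist2 _ hq').trans (hδ _ hq')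
    have h2 := hb q (by omega)
    have h3 := h0P q (by omega)
    have h4 : P d (q + 1) c / P d (q + 1) c0 - 1 =
        (P d (q + 1) c - P d (q + 1) c0) / P d (q + 1) c0 := by
      field_simp
    rw [h4, norm_div, div_le_iff₀ (norm_pos_iff.2 h3)]
    calc _ ≤ Real.exp (-X + 5 * T) := h1
      _ = Real.exp (-X + 6 * T) * Real.exp (-T) := by
          rw [← Real.exp_add]
          congr 1
          ring
      _ ≤ _ := mul_le_mul_of_nonneg_left h2 (Real.exp_pos _).le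
  -- the reciprocals
  have hdm : ((d - 1 : ℕ) : ℝ) ≤ d := by exact_mod_cast Nat.sub_le d 1
  have hτs : Real.exp (-X + 6 * T) * Real.exp (2 * T) ≤ 1 := by
    rw [← Real.exp_add, Real.exp_le_one_iff]
    linarith
  have he0 : 0 < Real.exp (-X + 6 * T) := Real.exp_pos _
  have hee : Real.exp (2 * T) = Real.exp T * Real.exp T := by rw [← Real.exp_add]; congr 1; ring
  have hv : ∀ q : ℕ, q < k → ‖(P d (q + 1) c / P d (q + 1) c0)⁻¹ ^ (d - 1) - 1‖ ≤
      4 * d * Real.exp (-X + 6 * T) := by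
    intro q hq
    have h1 : Real.exp (-X + 6 * T) ≤ 1 / 2 := by
      rw [hee] at hτs
      nlinarith
    have h2 := inv_close (hτ q hq) h1
    have h3 : (P d (q + 1) c / P d (q + 1) c0)⁻¹ ^ (d - 1) =
        ∏ _i ∈ Finset.range (d - 1), (P d (q + 1) c / P d (q + 1) c0)⁻¹ := by
      rw [Finset.prod_const, Finset.card_range]
    rw [h3]
    have h4 : ((d - 1 : ℕ) : ℝ) * (2 * Real.exp (-X + 6 * T)) ≤ d * (2 * Real.exp (-X + 6 * T)) :=
      mul_le_mul_of_nonneg_right hdm (by positivity)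
    have h5 : d * (2 * Real.exp (-X + 6 * T)) ≤ 1 := by
      rw [hee] at hτs
      have h6 : 2 * (d : ℝ) ≤ Real.exp T * Real.exp T := by nlinarith
      nlinarith
    have h6 := prod_close (n := d - 1) (u := fun _ => (P d (q + 1) c / P d (q + 1) c0)⁻¹)
      (τ := 2 * Real.exp (-X + 6 * T)) (by positivity) (fun _ _ => h2) (h4.trans h5)
    refine h6.trans ?_
    linarith
  have hMr : ∀ n : ℕ, n ≤ k → ‖M d c0 n * (M d c n)⁻¹ - 1‖ ≤ Real.exp (-X + 8 * T) := by
    intro n hn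
    have h1 := ha n (by omega)
    have h2 : (n : ℝ) * (4 * d * Real.exp (-X + 6 * T)) * 2 ≤ Real.exp (-X + 8 * T) := by
      have h3 : Real.exp (-X + 8 * T) = Real.exp (-X + 6 * T) * (Real.exp T * Real.exp T) := by
        rw [← hee, ← Real.exp_add]
        congr 1
        ring
      rw [h3]
      have h4 : (n : ℝ) * (8 * d) ≤ Real.exp T * Real.exp T :=
        mul_le_mul (by linarith) (by linarith) (by positivity) (Real.exp_pos _).le
      nlinarith
    have h5 : Real.exp (-X + 8 * T) ≤ 1 := Real.exp_le_one_iff.2 (by linarith)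
    rw [M_ratio hd]
    have h6 := prod_close (n := n)
      (u := fun q => (P d (q + 1) c / P d (q + 1) c0)⁻¹ ^ (d - 1))
      (τ := 4 * d * Real.exp (-X + 6 * T)) (by positivity) (fun q hq => hv q (by omega))
      (by nlinarith [show 0 ≤ (n : ℝ) * (4 * d * Real.exp (-X + 6 * T)) by positivity])
    refine h6.trans ?_
    linarith
  have hMd : ∀ n : ℕ, n ≤ k → ‖(M d c n)⁻¹ - (M d c0 n)⁻¹‖ ≤ Real.exp (-X + 9 * T) := by
    intro n hn
    have h1 := (hM0 n (by omega)).2.1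
    have h2 : M d c0 n ≠ 0 := norm_pos_iff.1 (hM0 n (by omega)).2.2
    have h3 : (M d c n)⁻¹ - (M d c0 n)⁻¹ = (M d c0 n)⁻¹ * (M d c0 n * (M d c n)⁻¹ - 1) := by
      rw [mul_sub, ← mul_assoc, inv_mul_cancel₀ h2, one_mul, mul_one]
    rw [h3, norm_mul]
    have h4 : ‖(M d c0 n)⁻¹‖ ≤ Real.exp T := by
      refine h1.trans (Real.exp_le_exp.2 ?_)
      have : 0 ≤ Real.log d * n := by positivity
      linarith
    calc _ ≤ Real.exp T * Real.exp (-X + 8 * T) :=
          mul_le_mul h4 (hMr n hn) (norm_nonneg _) (Real.exp_pos _).le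
      _ = _ := by rw [← Real.exp_add]; congr 1; ring
  have hRk : ‖R d c k - R d c0 k‖ ≤ Real.exp (-X + 10 * T) := by
    unfold R
    rw [← Finset.sum_sub_distrib]
    have h1 : ∀ n ∈ Finset.range (k + 1), ‖(M d c n)⁻¹ - (M d c0 n)⁻¹‖ ≤
        Real.exp (-X + 9 * T) := fun n hn => hMd n (by have := Finset.mem_range.1 hn; omega)
    refine (norm_sum_le_of_le _ h1).trans ?_
    rw [Finset.sum_const, Finset.card_range, nsmul_eq_mul]
    have h2 := ha k (by omega)
    calc ((k + 1 : ℕ) : ℝ) * Real.exp (-X + 9 * T) ≤ Real.exp T * Real.exp (-X + 9 * T) := by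
          gcongr
          push_cast
          linarith
      _ = _ := by rw [← Real.exp_add]; congr 1; ring
  have hRl : ‖R d c (2 * k) - R d c k‖ ≤ Real.exp (-X + 2 * T) := by
    have h1 : R d c (2 * k) - R d c k = ∑ n ∈ Finset.Ico (k + 1) (2 * k + 1), (M d c n)⁻¹ := by
      unfold R
      rw [Finset.sum_Ico_eq_sub _ (by omega)]
    rw [h1]
    have h2 : ∀ n ∈ Finset.Ico (k + 1) (2 * k + 1), ‖(M d c n)⁻¹‖ ≤ Real.exp (-X + T) := by
      intro n hn
      rw [Finset.mem_Ico] at hn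
      refine (hM1 n (by omega)).2.trans (Real.exp_le_exp.2 ?_)
      have h3 : X ≤ Real.log d * n := by
        rw [hX]
        have : (k : ℝ) ≤ n := by exact_mod_cast (by omega : k ≤ n)
        nlinarith
      linarith
    refine (norm_sum_le_of_le _ h2).trans ?_
    rw [Finset.sum_const, Nat.card_Ico, nsmul_eq_mul]
    have h3 := ha k (by omega)
    calc ((2 * k + 1 - (k + 1) : ℕ) : ℝ) * Real.exp (-X + T) ≤ Real.exp T * Real.exp (-X + T) := by
          gcongr
          have h4 : 2 * k + 1 - (k + 1) = k := by omega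
          rw [h4]
          linarith
      _ = _ := by rw [← Real.exp_add]; congr 1; ring
  have hRf : ‖R d c (2 * k)‖ ≤ Real.exp (-X + 11 * T) := by
    have h1 : R d c (2 * k) = (R d c (2 * k) - R d c k) + (R d c k - R d c0 k) + R d c0 k := by
      ring
    rw [h1]
    have h2 : Real.exp (-X + 2 * T) ≤ Real.exp (-X + 10 * T) := Real.exp_le_exp.2 (by linarith)
    calc _ ≤ ‖R d c (2 * k) - R d c k‖ + ‖R d c k - R d c0 k‖ + ‖R d c0 k‖ := norm_add₃_le
      _ ≤ 3 * Real.exp (-X + 10 * T) := by linarith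
      _ ≤ Real.exp T * Real.exp (-X + 10 * T) :=
          mul_le_mul_of_nonneg_right h3T (Real.exp_pos _).le
      _ = _ := by rw [← Real.exp_add]; congr 1; ring
  rw [deriv_eq hd fun q _ => he' q, norm_mul] at hh
  have h1 := (hM1 (2 * k) le_rfl).1
  have h2 : Real.log d * ((2 * k : ℕ) : ℝ) = 2 * X := by rw [hX]; push_cast; ring
  rw [h2] at h1
  have h3 : Real.exp (2 * X) ≤ Real.exp (X + 13 * T) := by
    calc _ ≤ ‖M d c (2 * k)‖ * ‖R d c (2 * k)‖ * Real.exp T := hh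
      _ ≤ Real.exp (2 * X + T) * Real.exp (-X + 11 * T) * Real.exp T := by gcongr
      _ = _ := by rw [← Real.exp_add, ← Real.exp_add]; congr 1; ring
  rw [Real.exp_le_exp] at h3
  linarith

/-- transversality -/
theorem t (hD : St_Dist) : St_Trans := by
  intro d c0 A c hd hA hne hlow hS hdist h5 h6
  have hd2 : (2 : ℝ) ≤ d := by exact_mod_cast hd
  have hd0 : (0 : ℝ) < d := by linarith
  have hlam : 0 < Real.log d := Real.log_pos (by linarith)
  obtain ⟨η, hη⟩ : ∃ η : ℝ, η = Real.log d / 80 := ⟨_, rfl⟩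
  have hη0 : 0 < η := by rw [hη]; positivity
  obtain ⟨K0, hK00, hgr⟩ := growth ((d : ℝ) * A + 4 * A + 2) η (by positivity) hη0
  obtain ⟨q, hq⟩ : ∃ q : ℝ, q = Real.exp (-(Real.log d - η)) := ⟨_, rfl⟩
  have hq0 : 0 < q := by rw [hq]; exact Real.exp_pos _
  have hq1 : q < 1 := by
    rw [hq, Real.exp_lt_one_iff, hη]
    linarith
  have hq1' : 0 < 1 - q := by linarith
  obtain ⟨K, hK0, hK1, hK2⟩ : ∃ K : ℝ, K0 ≤ K ∧ 100 * (d : ℝ) ≤ Real.exp K ∧
      (1 - q)⁻¹ ≤ Real.exp K := by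
    refine ⟨max K0 (max (Real.log (100 * d)) (Real.log (1 - q)⁻¹)), le_max_left _ _, ?_, ?_⟩
    · rw [← Real.log_le_iff_le_exp (by positivity)]
      exact (le_max_left _ _).trans (le_max_right _ _)
    · rw [← Real.log_le_iff_le_exp (by positivity)]
      exact (le_max_right _ _).trans (le_max_right _ _)
  have hKn : 0 ≤ K := hK00.trans hK0
  have g1 : ∀ n : ℕ, ((d : ℝ) - 1) * (A * bb n) ≤ K + η * n := by
    intro n
    have h1 := hgr n
    have h2 := bb_nonneg n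
    have h3 : 0 ≤ A * bb n := mul_nonneg hA h2
    linarith
  have g2 : ∀ n : ℕ, A * Real.log ((n : ℝ) + 2) ≤ K + η * n := by
    intro n
    have h1 := hgr n
    have h2 := bb_nonneg n
    have h3 : 0 ≤ A * bb n := mul_nonneg hA h2
    have h4 : 0 ≤ (d : ℝ) * (A * bb n) := by positivity
    have h5 := mul_le_mul_of_nonneg_left (log_le_bb n) hA
    linarith
  have g3 : ∀ n : ℕ, A * aa n ≤ K + η * n := by
    intro n
    have h1 := hgr n
    have h2 := bb_nonneg n
    have h3 : 0 ≤ A * bb n := mul_nonneg hA h2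
    have h4 : 0 ≤ (d : ℝ) * (A * bb n) := by positivity
    have h5 := mul_le_mul_of_nonneg_left (aa_le_bb n) hA
    linarith
  have g4 : ∀ n : ℕ, Real.log ((n : ℝ) + 2) ≤ K + η * n := by
    intro n
    have h1 := hgr n
    have h2 := bb_nonneg n
    have h3 : 0 ≤ A * bb n := mul_nonneg hA h2
    have h4 : 0 ≤ (d : ℝ) * (A * bb n) := by positivity
    have h5 := log_le_bb n
    linarith
  have h0P : ∀ n : ℕ, P d (n + 1) c0 ≠ 0 := by
    intro n
    have h1 := hlow n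
    have h2 := Real.exp_pos (-(A * Real.log ((n : ℝ) + 2)))
    exact norm_pos_iff.1 (by linarith)
  have hMe : ∀ n : ℕ, ‖M d c0 n‖ = Real.exp (Real.log d * n + (d - 1) * S d c0 n) :=
    fun n => norm_M_exp hd fun k _ => h0P k
  have hM0 : ∀ n : ℕ, M d c0 n ≠ 0 := by
    intro n
    rw [← norm_pos_iff, hMe]
    exact Real.exp_pos _
  have hSa : ∀ n : ℕ, |((d : ℝ) - 1) * S d c0 n| ≤ K + η * n := by
    intro n
    rw [abs_mul, abs_of_nonneg (by linarith : (0 : ℝ) ≤ (d : ℝ) - 1)]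
    exact (mul_le_mul_of_nonneg_left (hS n) (by linarith)).trans (g1 n)
  have hMb : ∀ n : ℕ, ‖(M d c0 n)⁻¹‖ ≤ Real.exp K * q ^ n := by
    intro n
    have h1 := abs_le.1 (hSa n)
    rw [norm_inv, hMe, ← Real.exp_neg, hq, ← Real.exp_nat_mul, ← Real.exp_add, Real.exp_le_exp]
    linarith [h1.1]
  have hsum : Summable fun n : ℕ => (M d c0 n)⁻¹ :=
    Summable.of_norm_bounded ((summable_geometric_of_lt_one hq0.le hq1).mul_left (Real.exp K)) hMb
  obtain ⟨R0, hR0⟩ : ∃ R0 : ℂ, HasSum (fun n : ℕ => (M d c0 n)⁻¹) R0 := hsum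
  refine ⟨R0, ?_, ?_⟩
  swap
  · have h1 := hR0.tendsto_sum_nat.comp (tendsto_add_atTop_nat 1)
    refine h1.congr fun n => ?_
    have h2 := deriv_eq hd (n := n) (c := c0) fun k _ => h0P k
    rw [h2]
    change R d c0 n = M d c0 n * R d c0 n / M d c0 n
    rw [mul_div_cancel_left₀ _ (hM0 n)]
  · intro hR
    rw [hR] at hR0
    have htail : ∀ k : ℕ, ‖R d c0 k‖ ≤ Real.exp (-(Real.log d * k) + (2 * K + η * k)) := by
      intro k
      have h1 := norm_sub_le_of_geometric_bound_of_hasSum hq1 hMb hR0 (k + 1)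
      rw [sub_zero] at h1
      have h2 : Real.exp K * q ^ (k + 1) / (1 - q) ≤
          Real.exp K * q ^ k * Real.exp K := by
        rw [div_eq_mul_inv]
        have h3 : q ^ (k + 1) ≤ q ^ k := pow_le_pow_of_le_one hq0.le hq1.le (Nat.le_succ k)
        gcongr
      have h4 : Real.exp K * q ^ k * Real.exp K =
          Real.exp (-(Real.log d * k) + (2 * K + η * k)) := by
        rw [hq, ← Real.exp_nat_mul, ← Real.exp_add, ← Real.exp_add]
        congr 1
        ring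
      rw [← h4]
      exact h1.trans h2
    have e5 := (tendsto_add_atTop_nat 1).eventually (h5 (η / d) (by positivity))
    have e6 := (tendsto_add_atTop_nat 1).eventually h6
    have e7 : ∀ᶠ i : ℕ in atTop, 40 * K / Real.log d ≤ (2 : ℝ) ^ i :=
      (tendsto_pow_atTop_atTop_of_one_lt (by norm_num : (1 : ℝ) < 2)).eventually_ge_atTop _
    obtain ⟨i, h5i, h6i, h7i⟩ := (e5.and (e6.and e7)).exists
    obtain ⟨k, hk⟩ : ∃ k : ℕ, k = 2 ^ i := ⟨_, rfl⟩
    have hl : 2 ^ (i + 1) = 2 * k := by rw [hk, pow_succ]; ring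
    have hkr : (2 : ℝ) ^ i = k := by rw [hk]; push_cast; rfl
    have hlr : (2 : ℝ) ^ (i + 1) = 2 * k := by rw [pow_succ, hkr]; ring
    have hdi := hdist (i + 1)
    rw [hl] at h6i hdi
    rw [hkr, div_le_iff₀ hlam] at h7i
    have hnT : ∀ n : ℕ, n ≤ 2 * k → K + η * n ≤ K + η * (2 * k) := by
      intro n hn
      have : (n : ℝ) ≤ 2 * k := by exact_mod_cast hn
      have := mul_le_mul_of_nonneg_left this hη0.le
      linarith
    have hKT : K ≤ K + η * (2 * k) := by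
      have : 0 ≤ η * (2 * (k : ℝ)) := by positivity
      linarith
    have haT : Real.exp (A * aa (2 * k)) ≤ Real.exp (K + η * (2 * k)) := by
      rw [Real.exp_le_exp]
      have := g3 (2 * k)
      push_cast at this
      exact this
    have hdl : (d : ℝ) ^ (2 * k) = Real.exp (2 * (Real.log d * k)) := by
      have h1 : 2 * (Real.log d * (k : ℝ)) = ((2 * k : ℕ) : ℝ) * Real.log d := by
        push_cast
        ring
      rw [h1, Real.exp_nat_mul, Real.exp_log hd0]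
    refine core hD hd (c0 := c0) (c := c (i + 1)) (k := k) (T := K + η * (2 * k)) ?_ ?_ ?_ ?_ ?_ ?_
      (hne (i + 1)) ?_ ?_ ?_
    · intro n hn
      have h1 := (g4 n).trans (hnT n hn)
      rwa [Real.log_le_iff_le_exp (by positivity)] at h1
    · exact hK1.trans (Real.exp_le_exp.2 hKT)
    · intro n hn
      refine le_trans (Real.exp_le_exp.2 ?_) (hlow n)
      exact neg_le_neg ((g2 n).trans (hnT n hn))
    · intro n hn
      exact (hSa n).trans (hnT n hn)
    · rw [hdl] at hdi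
      have h1 := hdi.trans haT
      have h2 : 0 < Real.exp (2 * (Real.log d * k)) := Real.exp_pos _
      rw [Real.exp_add, Real.exp_neg]
      rw [← div_eq_inv_mul, le_div_iff₀ h2]
      exact h1
    · intro n hn
      have h1 := h5i n (by rw [hl]; exact hn)
      rw [hlr] at h1
      rw [abs_mul, abs_of_nonneg (by linarith : (0 : ℝ) ≤ (d : ℝ) - 1)]
      have h2 : ((d : ℝ) - 1) * |S d (c (i + 1)) n| ≤ (d : ℝ) * (η / d * (2 * k)) := by
        refine mul_le_mul (by linarith) h1 (abs_nonneg _) hd0.le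
      have h3 : (d : ℝ) * (η / d * (2 * k)) = η * (2 * k) := by
        field_simp
      linarith
    · refine (htail k).trans (Real.exp_le_exp.2 ?_)
      have : 0 ≤ η * (k : ℝ) := by positivity
      linarith
    · have h1 : η * (k : ℝ) = Real.log d * k / 80 := by rw [hη]; ring
      have h2 : 20 * (K + η * (2 * k)) = 20 * K + 40 * (η * (k : ℝ)) := by ring
      rw [h2, h1]
      linarith
    · rw [← hdl]
      exact h6i.trans (mul_le_mul_of_nonneg_left haT (norm_nonneg _))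

end

end Pool.Agent.Y37.TY
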